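import Mathlib
import Pool.Agent.Helper6.SW.Defs

/-! SW-9: Siegel-Walfisz from Siegel's theorem, logarithmic derivative bounds and the tent
transform. -/

namespace Pool.Agent.Helper1.SW

open Pool.Agent.Helper6.SW Pool.Agent.Helper6.ER DirichletCharacter MeasureTheory

/-- powers of logarithms against the square root of `1 + t ^ 2` -/
theorem log_pow_le (m : ℕ) (hm : 0 < m) (t : ℝ) :
    Real.log (|t| + 3) ^ m ≤ (2 * m : ℝ) ^ m * 3 * (1 + t ^ 2) ^ (1 / 4 : ℝ) := by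
  have hy : (0 : ℝ) < |t| + 3 := by positivity
  have hm' : (0 : ℝ) < m := by exact_mod_cast hm
  have h1 : Real.log (|t| + 3) ≤ (|t| + 3) ^ (1 / (2 * m : ℝ)) / (1 / (2 * m : ℝ)) :=
    Real.log_le_rpow_div hy.le (by positivity)
  have h0 : 0 ≤ Real.log (|t| + 3) := Real.log_nonneg (by have := abs_nonneg t; linarith)
  have h2 : Real.log (|t| + 3) ^ m ≤ (2 * m : ℝ) ^ m * (|t| + 3) ^ (1 / 2 : ℝ) := by
    calc Real.log (|t| + 3) ^ m ≤ ((|t| + 3) ^ (1 / (2 * m : ℝ)) / (1 / (2 * m : ℝ))) ^ m := by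
          gcongr
      _ = ((2 * m : ℝ) * (|t| + 3) ^ (1 / (2 * m : ℝ))) ^ m := by
          congr 1; field_simp
      _ = (2 * m : ℝ) ^ m * (|t| + 3) ^ (1 / 2 : ℝ) := by
          rw [mul_pow, ← Real.rpow_natCast ((|t| + 3) ^ (1 / (2 * m : ℝ))) m, ← Real.rpow_mul hy.le]
          congr 2
          field_simp
  have h3 : (|t| + 3) ^ (1 / 2 : ℝ) ≤ 3 * (1 + t ^ 2) ^ (1 / 4 : ℝ) := by
    have h4 : (|t| + 3) ^ (1 / 2 : ℝ) = ((|t| + 3) ^ 2) ^ (1 / 4 : ℝ) := by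
      rw [← Real.rpow_natCast, ← Real.rpow_mul hy.le]
      norm_num
    have h5 : (3 : ℝ) = (81 : ℝ) ^ (1 / 4 : ℝ) := by
      rw [show (81 : ℝ) = 3 ^ (4 : ℝ) by norm_num, ← Real.rpow_mul (by norm_num)]
      norm_num
    rw [h4]
    conv_rhs => rw [h5]
    rw [← Real.mul_rpow (by norm_num) (by positivity)]
    apply Real.rpow_le_rpow (by positivity) _ (by norm_num)
    have : |t| ^ 2 = t ^ 2 := sq_abs t
    nlinarith [sq_nonneg (|t| - 3), abs_nonneg t]
  calc Real.log (|t| + 3) ^ m ≤ (2 * m : ℝ) ^ m * (|t| + 3) ^ (1 / 2 : ℝ) := h2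
    _ ≤ (2 * m : ℝ) ^ m * (3 * (1 + t ^ 2) ^ (1 / 4 : ℝ)) := by gcongr
    _ = _ := by ring

theorem ell_le (N : ℕ) (hN : 1 ≤ N) (t : ℝ) :
    ell N t ≤ (1 + Real.log N) * Real.log (|t| + 3) := by
  have hN' : (1 : ℝ) ≤ N := by exact_mod_cast hN
  have h1 : 1 ≤ Real.log (|t| + 3) := by
    rw [Real.le_log_iff_exp_le (by positivity)]
    have := Real.exp_one_lt_d9
    have := abs_nonneg t
    linarith
  unfold ell
  rw [Real.log_mul (by positivity) (by positivity)]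
  have h2 : 0 ≤ Real.log N := Real.log_nonneg hN'
  nlinarith

theorem ell_nonneg (N : ℕ) (hN : 1 ≤ N) (t : ℝ) : 0 ≤ ell N t := by
  unfold ell
  have hN' : (1 : ℝ) ≤ N := by exact_mod_cast hN
  apply Real.log_nonneg
  have := abs_nonneg t
  nlinarith

theorem integrable_34 : Integrable (fun t : ℝ => (1 + t ^ 2) ^ (-(3 / 4) : ℝ)) := by
  have h := integrable_rpow_neg_one_add_norm_sq (E := ℝ) (μ := volume) (r := 3 / 2)
    (by norm_num)
  refine h.congr (Filter.Eventually.of_forall fun t => ?_)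
  simp only [Real.norm_eq_abs, sq_abs]
  norm_num

/-- the final growth comparison -/
theorem growth (A B : ℝ) (m : ℕ) (hA : 0 ≤ A) (hB : 1 ≤ B) (hm : 0 < m) :
    ∃ L₀ : ℝ, 2 ≤ L₀ ∧ ∀ L ≥ L₀,
      A * L ^ (1 / 8 : ℝ) * (1 + B * Real.log L) ^ m ≤ Real.sqrt L := by
  have hm' : (0 : ℝ) < m := by exact_mod_cast hm
  set D : ℝ := A * (1 + B * (8 * m)) ^ m with hD
  have hD0 : 0 ≤ D := by positivity
  refine ⟨max 2 (D ^ 4), le_max_left _ _, ?_⟩
  intro L hL
  have hL2 : 2 ≤ L := le_trans (le_max_left _ _) hL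
  have hLD : D ^ 4 ≤ L := le_trans (le_max_right _ _) hL
  have hL0 : 0 < L := by linarith
  have hlog : 0 ≤ Real.log L := Real.log_nonneg (by linarith)
  have h1 : Real.log L ≤ L ^ (1 / (8 * m : ℝ)) / (1 / (8 * m : ℝ)) :=
    Real.log_le_rpow_div hL0.le (by positivity)
  have h2 : (1 : ℝ) ≤ L ^ (1 / (8 * m : ℝ)) := Real.one_le_rpow (by linarith) (by positivity)
  have h3 : 1 + B * Real.log L ≤ (1 + B * (8 * m)) * L ^ (1 / (8 * m : ℝ)) := by
    have h4 : Real.log L ≤ (8 * m) * L ^ (1 / (8 * m : ℝ)) := by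
      refine h1.trans (le_of_eq ?_)
      field_simp
    have : B * Real.log L ≤ B * ((8 * m) * L ^ (1 / (8 * m : ℝ))) := by gcongr
    linarith
  have h5 : (1 + B * Real.log L) ^ m ≤ (1 + B * (8 * m)) ^ m * L ^ (1 / 8 : ℝ) := by
    calc (1 + B * Real.log L) ^ m ≤ ((1 + B * (8 * m)) * L ^ (1 / (8 * m : ℝ))) ^ m := by
          gcongr
      _ = (1 + B * (8 * m)) ^ m * L ^ (1 / 8 : ℝ) := by
          rw [mul_pow, ← Real.rpow_natCast (L ^ (1 / (8 * m : ℝ))) m, ← Real.rpow_mul hL0.le]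
          congr 2
          field_simp
  have h6 : D ≤ L ^ (1 / 4 : ℝ) := by
    have : D = (D ^ 4) ^ (1 / 4 : ℝ) := by
      rw [← Real.rpow_natCast, ← Real.rpow_mul hD0]
      norm_num
    rw [this]
    exact Real.rpow_le_rpow (by positivity) hLD (by norm_num)
  calc A * L ^ (1 / 8 : ℝ) * (1 + B * Real.log L) ^ m
      ≤ A * L ^ (1 / 8 : ℝ) * ((1 + B * (8 * m)) ^ m * L ^ (1 / 8 : ℝ)) := by gcongr
    _ = D * (L ^ (1 / 8 : ℝ) * L ^ (1 / 8 : ℝ)) := by rw [hD]; ring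
    _ = D * L ^ (1 / 4 : ℝ) := by
        rw [← Real.rpow_add hL0]; norm_num
    _ ≤ L ^ (1 / 4 : ℝ) * L ^ (1 / 4 : ℝ) := by gcongr
    _ = L ^ (1 / 2 : ℝ) := by rw [← Real.rpow_add hL0]; norm_num
    _ = Real.sqrt L := by rw [Real.sqrt_eq_rpow]

theorem stSW_of (h1 : StSiegel) (h2 : StLogDeriv) (h3 : StTent) (h4 : StTransform) : StSW := by
  intro V k B hV
  obtain ⟨w, C1, hw, hwb⟩ := h3 V hV
  obtain ⟨C0, hC0, hLD⟩ := h2
  set B' : ℝ := max B 1 with hB'
  have hB1 : 1 ≤ B' := le_max_right _ _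
  have hk1 : (0 : ℝ) < (k : ℝ) + 1 := by positivity
  set ε : ℝ := 1 / (8 * B' * (k + 1)) with hε
  have hε0 : 0 < ε := by positivity
  obtain ⟨c, hc, hSi⟩ := h1 ε hε0
  set c1 : ℝ := min c 1 with hc1
  have hc10 : 0 < c1 := lt_min hc one_pos
  have hC10 : 0 ≤ C1 := by
    have h := (hw.2.1 0).trans (hwb 0)
    simpa using h
  set m : ℕ := 11 * (k + 1) with hm
  have hmpos : 0 < m := by positivity
  set I0 : ℝ := ∫ t : ℝ, (1 + t ^ 2) ^ (-(3 / 4) : ℝ) with hI0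
  have hI00 : 0 ≤ I0 := integral_nonneg fun t => by positivity
  set A : ℝ := C1 * k.factorial * (C0 / c1) ^ (k + 1) * ((2 * m : ℝ) ^ m * 3) * I0 with hA
  have hA0 : 0 ≤ A := by positivity
  obtain ⟨L₀, hL₀2, hL₀⟩ := growth A B' m hA0 hB1 hmpos
  refine ⟨Real.exp L₀, ?_⟩
  intro X hX N _ χ hprim hχ hN
  set L : ℝ := Real.log X with hL
  have hXpos : 0 < X := lt_of_lt_of_le (Real.exp_pos _) hX
  have hLL : L₀ ≤ L := (Real.le_log_iff_exp_le hXpos).2 hX
  have hL2 : 2 ≤ L := hL₀2.trans hLL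
  have hLpos : 0 < L := by linarith
  have hX1 : 1 < X := by
    have := Real.add_one_le_exp L₀
    linarith
  have hN1 : 1 ≤ N := Nat.one_le_iff_ne_zero.2 (NeZero.ne N)
  have hN1' : (1 : ℝ) ≤ N := by exact_mod_cast hN1
  have hNB : (N : ℝ) ≤ L ^ B' :=
    hN.trans (Real.rpow_le_rpow_of_exponent_le (by linarith) (le_max_left _ _))
  set δ : ℝ := c1 * (N : ℝ) ^ (-ε) with hδ
  have hNε : (N : ℝ) ^ (-ε) ≤ 1 := Real.rpow_le_one_of_one_le_of_nonpos hN1' (by linarith)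
  have hNε0 : 0 < (N : ℝ) ^ (-ε) := Real.rpow_pos_of_pos (by linarith) _
  have hδ0 : 0 < δ := by positivity
  have hδ1 : δ ≤ 1 := by
    have : c1 ≤ 1 := min_le_right _ _
    calc δ ≤ 1 * 1 := by rw [hδ]; gcongr
      _ = 1 := one_mul 1
  have hδL : χ ^ 2 = 1 → δ ≤ ‖LFunction χ 1‖ := by
    intro h
    refine le_trans ?_ (hSi N χ hprim hχ h)
    rw [hδ]
    have : c1 ≤ c := min_le_left _ _
    gcongr
  have hx0 : 0 < 1 / L := by positivity
  have hx1 : 1 / L ≤ 1 / 2 := one_div_le_one_div_of_le (by norm_num) hL2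
  refine (h4 V w hV hw k N χ X hX1).trans ?_
  rw [← hL]
  set K : ℝ := C1 * k.factorial * (C0 / δ) ^ (k + 1) * (1 + Real.log N) ^ m *
    ((2 * m : ℝ) ^ m * 3) with hK
  have hlogN : 0 ≤ Real.log N := Real.log_nonneg hN1'
  have hK0 : 0 ≤ K := by positivity
  have hbound : ∀ t : ℝ, w t * ‖iteratedDeriv k (LD χ)
      (1 + (1 / L : ℝ) + Complex.I * (-t : ℝ))‖ ≤ K * (1 + t ^ 2) ^ (-(3 / 4) : ℝ) := by
    intro t
    have e1 := hLD k N χ hχ δ (1 / L) (-t) hδ0 hδ1 hδL hx0 hx1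
    have e2 := ell_le N hN1 (-t)
    rw [abs_neg] at e2
    have e3 := ell_nonneg N hN1 (-t)
    have hlog3 : 0 ≤ Real.log (|t| + 3) := Real.log_nonneg (by have := abs_nonneg t; linarith)
    have e4 : (C0 * ell N (-t) ^ 11 / δ) ^ (k + 1) ≤
        (C0 / δ) ^ (k + 1) * (1 + Real.log N) ^ m * Real.log (|t| + 3) ^ m := by
      calc (C0 * ell N (-t) ^ 11 / δ) ^ (k + 1)
          ≤ (C0 * ((1 + Real.log N) * Real.log (|t| + 3)) ^ 11 / δ) ^ (k + 1) := by gcongr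
        _ = (C0 / δ) ^ (k + 1) * (1 + Real.log N) ^ m * Real.log (|t| + 3) ^ m := by
            rw [hm, pow_mul, pow_mul, ← mul_pow, ← mul_pow]
            congr 1
            rw [mul_pow]
            ring
    have e5 := log_pow_le m hmpos t
    have e6 : 0 ≤ w t := hw.2.1 t
    have e7 := hwb t
    have hpos : 0 < 1 + t ^ 2 := by positivity
    calc w t * ‖iteratedDeriv k (LD χ) (1 + (1 / L : ℝ) + Complex.I * (-t : ℝ))‖
        ≤ (C1 / (1 + t ^ 2)) * (k.factorial * ((C0 / δ) ^ (k + 1) * (1 + Real.log N) ^ m *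
          ((2 * m : ℝ) ^ m * 3 * (1 + t ^ 2) ^ (1 / 4 : ℝ)))) := by
          refine mul_le_mul e7 ?_ (norm_nonneg _) (by positivity)
          refine e1.trans ?_
          gcongr
          refine e4.trans ?_
          gcongr
      _ = K * ((1 + t ^ 2) ^ (1 / 4 : ℝ) / (1 + t ^ 2)) := by
          rw [hK]; field_simp
      _ = K * (1 + t ^ 2) ^ (-(3 / 4) : ℝ) := by
          congr 1
          nth_rewrite 2 [← Real.rpow_one (1 + t ^ 2)]
          rw [← Real.rpow_sub hpos]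
          norm_num
  have hint : (∫ t : ℝ, w t * ‖iteratedDeriv k (LD χ)
      (1 + (1 / L : ℝ) + Complex.I * (-t : ℝ))‖) ≤ K * I0 := by
    rw [hI0, ← integral_const_mul]
    apply integral_mono_of_nonneg
    · exact Filter.Eventually.of_forall fun t => mul_nonneg (hw.2.1 t) (norm_nonneg _)
    · exact integrable_34.const_mul K
    · exact Filter.Eventually.of_forall hbound
  refine hint.trans ?_
  have hfin : K * I0 ≤ A * L ^ (1 / 8 : ℝ) * (1 + B' * Real.log L) ^ m := by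
    have f1 : (C0 / δ) ^ (k + 1) ≤ (C0 / c1) ^ (k + 1) * L ^ (1 / 8 : ℝ) := by
      have f2 : C0 / δ = (C0 / c1) * (N : ℝ) ^ ε := by
        rw [hδ, Real.rpow_neg (by linarith)]
        field_simp
      rw [f2, mul_pow]
      have f3 : ((N : ℝ) ^ ε) ^ (k + 1) ≤ L ^ (1 / 8 : ℝ) := by
        rw [← Real.rpow_natCast, ← Real.rpow_mul (by linarith)]
        calc (N : ℝ) ^ (ε * ((k + 1 : ℕ) : ℝ)) ≤ (L ^ B') ^ (ε * ((k + 1 : ℕ) : ℝ)) := by
              apply Real.rpow_le_rpow (by linarith) hNB (by positivity)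
          _ = L ^ (1 / 8 : ℝ) := by
              rw [← Real.rpow_mul hLpos.le]
              congr 1
              rw [hε]
              push_cast
              field_simp
      gcongr
    have f4 : Real.log N ≤ B' * Real.log L := by
      have := Real.log_le_log (by linarith) hNB
      rwa [Real.log_rpow hLpos] at this
    have f5 : (1 + Real.log N) ^ m ≤ (1 + B' * Real.log L) ^ m := by gcongr
    calc K * I0 = (C1 * k.factorial * ((2 * m : ℝ) ^ m * 3) * I0) *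
          ((C0 / δ) ^ (k + 1) * (1 + Real.log N) ^ m) := by rw [hK]; ring
      _ ≤ (C1 * k.factorial * ((2 * m : ℝ) ^ m * 3) * I0) *
          (((C0 / c1) ^ (k + 1) * L ^ (1 / 8 : ℝ)) * (1 + B' * Real.log L) ^ m) := by gcongr
      _ = A * L ^ (1 / 8 : ℝ) * (1 + B' * Real.log L) ^ m := by rw [hA]; ring
  exact hfin.trans (hL₀ L hLL)

end Pool.Agent.Helper1.SW
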